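import Pool.Agent.H29.FL4.Stmts

set_option autoImplicit false

open Matrix MeasureTheory

namespace Pool.FL4

open Pool.FLT

namespace Nre

theorem nrm_coe (B : Matrix (Fin 4) (Fin 4) ℝ) (h : B.det ≠ 0) :
    ((nrm B : GR 4) : Matrix (Fin 4) (Fin 4) ℝ) =
      B * diagonal (fun j => if j = 0 then B.det⁻¹ else 1) := by
  unfold nrm
  rw [dif_pos h]

theorem inL_iff (i : ℕ) (s : ℤ) (z : Fin 4 → ℝ) :
    inL i s z ↔ ∃ m : Fin 4 → ℤ, ∀ j, z j = ∑ k, (m k : ℝ) * Gs i s k j := by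
  unfold inL
  refine exists_congr fun m => forall_congr' fun j => ?_
  rw [Fin.sum_univ_four]
  have h0 : Gs i s 0 j = yy i j - s := rfl
  have h1 : Gs i s 1 j = r j * (yy i j - s) := rfl
  have h2 : Gs i s 2 j = be i j := rfl
  have h3 : Gs i s 3 j = r j * be i j := rfl
  rw [h0, h1, h2, h3]
  have h4 : ((m 0 : ℝ) + m 1 * r j) * (yy i j - s) + (m 2 + m 3 * r j) * be i j =
      (m 0 : ℝ) * (yy i j - s) + m 1 * (r j * (yy i j - s)) + m 2 * be i j +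
        m 3 * (r j * be i j) := by ring
  rw [h4]

theorem comb (A A' : Matrix (Fin 4) (Fin 4) ℝ) (γ : Matrix (Fin 4) (Fin 4) ℤ) (e : Fin 4 → ℝ)
    (h : ∀ k j, A' k j = (∑ l, (γ k l : ℝ) * A l j) * e j) (m : Fin 4 → ℤ) (j : Fin 4) :
    ∑ k, (m k : ℝ) * A' k j = (∑ l, ((m ᵥ* γ) l : ℝ) * A l j) * e j := by
  have h1 : ∀ l, ((m ᵥ* γ) l : ℝ) = ∑ k, (m k : ℝ) * (γ k l : ℝ) := by
    intro l
    simp only [Matrix.vecMul, dotProduct]
    push_cast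
    rfl
  simp only [h, h1, Finset.sum_mul, Finset.mul_sum]
  rw [Finset.sum_comm]
  refine Finset.sum_congr rfl fun l _ => Finset.sum_congr rfl fun k _ => ?_
  ring

end Nre

theorem nre (hDET : DETStmt) : NREStmt := by
  intro i hi s s' γ d h
  have hA : (Gs i s).det ≠ 0 := (hDET i hi).2 s
  have hA' : (Gs i s').det ≠ 0 := (hDET i hi).2 s'
  rw [Nre.nrm_coe _ hA, Nre.nrm_coe _ hA'] at h
  obtain ⟨D, hD⟩ : ∃ D : Fin 4 → ℝ, D = fun j => if j = 0 then (Gs i s).det⁻¹ else 1 := ⟨_, rfl⟩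
  obtain ⟨D', hD'⟩ : ∃ D' : Fin 4 → ℝ, D' = fun j => if j = 0 then (Gs i s').det⁻¹ else 1 :=
    ⟨_, rfl⟩
  rw [← hD, ← hD'] at h
  have hD'0 : ∀ j, D' j ≠ 0 := by
    intro j
    rw [hD']
    by_cases hj : j = 0
    · simp only [hj, if_true]
      exact inv_ne_zero hA'
    · simp only [hj, if_false]
      exact one_ne_zero
  have hkj : ∀ k j, Gs i s' k j =
      (∑ l, (((γ : Matrix (Fin 4) (Fin 4) ℤ) k l : ℤ) : ℝ) * Gs i s l j) * (D j * d j / D' j) := by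
    intro k j
    have h1 := congrFun (congrFun h k) j
    rw [Matrix.mul_diagonal, Matrix.mul_diagonal, ← Matrix.mul_assoc, Matrix.mul_diagonal,
      Matrix.mul_apply] at h1
    have h2 : ∀ l, (inc 4 γ : Matrix (Fin 4) (Fin 4) ℝ) k l =
        (((γ : Matrix (Fin 4) (Fin 4) ℤ) k l : ℤ) : ℝ) := fun l => rfl
    simp only [h2] at h1
    have h3 := hD'0 j
    rw [mul_div_assoc', eq_div_iff h3, h1]
    ring
  obtain ⟨e, he⟩ : ∃ e : Fin 4 → ℝ, e = fun j => D j * d j / D' j := ⟨_, rfl⟩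
  have hke : ∀ k j, Gs i s' k j =
      (∑ l, (((γ : Matrix (Fin 4) (Fin 4) ℤ) k l : ℤ) : ℝ) * Gs i s l j) * e j := by
    intro k j
    rw [he]
    exact hkj k j
  have he0 : ∀ j, e j ≠ 0 := by
    intro j hj
    apply hA'
    apply Matrix.det_eq_zero_of_column_eq_zero j
    intro k
    rw [hke, hj, mul_zero]
  refine ⟨e, he0, fun z => ?_⟩
  rw [Nre.inL_iff, Nre.inL_iff]
  constructor
  · rintro ⟨m, hm⟩
    refine ⟨m ᵥ* ((γ⁻¹ : GZ 4) : Matrix (Fin 4) (Fin 4) ℤ), fun j => ?_⟩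
    rw [Nre.comb (Gs i s) (Gs i s') _ e hke]
    have h5 : (m ᵥ* ((γ⁻¹ : GZ 4) : Matrix (Fin 4) (Fin 4) ℤ)) ᵥ* (γ : Matrix (Fin 4) (Fin 4) ℤ) =
        m := by
      rw [Matrix.vecMul_vecMul, ← Matrix.SpecialLinearGroup.coe_mul, inv_mul_cancel,
        Matrix.SpecialLinearGroup.coe_one, Matrix.vecMul_one]
    rw [h5, ← hm j]
  · rintro ⟨m, hm⟩
    refine ⟨m ᵥ* (γ : Matrix (Fin 4) (Fin 4) ℤ), fun j => ?_⟩
    have h6 := hm j
    rw [Nre.comb (Gs i s) (Gs i s') _ e hke] at h6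
    exact mul_right_cancel₀ (he0 j) h6

end Pool.FL4
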